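import Pool.Agent.V5helper19.ER.Stm

set_option autoImplicit false
open Finset

namespace V5helper28.ER
open V5helper19.ER

section
variable {H : Type} [Group H] [Fintype H]

/-- the operator -/
noncomputable def AA (Δ : Finset H) : EuclideanSpace ℝ H →ₗ[ℝ] EuclideanSpace ℝ H where
  toFun f := WithLp.toLp 2 (fun x => ∑ d ∈ Δ, f (x * d))
  map_add' f g := by ext x; simp [Finset.sum_add_distrib]
  map_smul' c f := by ext x; simp [Finset.mul_sum]

lemma AA_apply (Δ : Finset H) (f : EuclideanSpace ℝ H) (x : H) :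
    AA Δ f x = ∑ d ∈ Δ, f (x * d) := rfl

lemma inner_E (f g : EuclideanSpace ℝ H) : inner ℝ f g = ∑ x, f x * g x := by
  rw [PiLp.inner_apply]
  apply Finset.sum_congr rfl
  intro x _
  simp [mul_comm]

lemma norm_E (f : EuclideanSpace ℝ H) : ‖f‖ ^ 2 = ∑ x, f x ^ 2 := by
  rw [← real_inner_self_eq_norm_sq, inner_E]
  apply Finset.sum_congr rfl
  intro x _
  ring

lemma AA_symm (Δ : Finset H) (hΔ : ∀ d ∈ Δ, d⁻¹ ∈ Δ) : (AA Δ).IsSymmetric := by
  intro f g
  rw [inner_E, inner_E]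
  simp only [AA_apply, Finset.sum_mul, Finset.mul_sum]
  rw [Finset.sum_comm, Finset.sum_comm (s := univ) (t := Δ)]
  have h1 : ∀ d : H, ∑ x, f (x * d) * g x = ∑ x, f x * g (x * d⁻¹) := by
    intro d
    rw [← Equiv.sum_comp (Equiv.mulRight d) (fun x => f x * g (x * d⁻¹))]
    simp
  simp only [h1]
  refine Finset.sum_nbij' (fun d => d⁻¹) (fun d => d⁻¹) (fun d hd => hΔ d hd) (fun d hd => hΔ d hd)
    (fun d _ => inv_inv d) (fun d _ => inv_inv d) (fun d _ => rfl)

/-- the form and the norm in the eigenvector basis -/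
lemma form_le {E : Type*} [NormedAddCommGroup E] [InnerProductSpace ℝ E] [FiniteDimensional ℝ E]
    (A : E →ₗ[ℝ] E) (hA : A.IsSymmetric) (h : E) (hh : h ≠ 0) :
    ∃ μ : ℝ, (∃ w : E, w ≠ 0 ∧ A w = μ • w) ∧ |inner ℝ (A h) h| ≤ |μ| * ‖h‖ ^ 2 := by
  classical
  have hn : Module.finrank ℝ E = Module.finrank ℝ E := rfl
  have hpos : 0 < Module.finrank ℝ E := by
    haveI : Nontrivial E := ⟨⟨h, 0, hh⟩⟩
    exact Module.finrank_pos
  haveI : Nonempty (Fin (Module.finrank ℝ E)) := ⟨⟨0, hpos⟩⟩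
  obtain ⟨i₀, hi₀⟩ := Finite.exists_max (fun i => |hA.eigenvalues hn i|)
  refine ⟨hA.eigenvalues hn i₀, ⟨hA.eigenvectorBasis hn i₀, ?_, ?_⟩, ?_⟩
  · exact (hA.eigenvectorBasis hn).orthonormal.ne_zero i₀
  · exact hA.apply_eigenvectorBasis hn i₀
  · have h1 : inner ℝ (A h) h = ∑ i, hA.eigenvalues hn i * (inner ℝ (hA.eigenvectorBasis hn i) h) ^ 2 := by
      rw [← (hA.eigenvectorBasis hn).sum_inner_mul_inner]
      apply Finset.sum_congr rfl
      intro i _
      have h2 : inner ℝ (A h) (hA.eigenvectorBasis hn i) =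
          hA.eigenvalues hn i * inner ℝ (hA.eigenvectorBasis hn i) h := by
        rw [hA h, hA.apply_eigenvectorBasis hn i]
        simp only [RCLike.ofReal_real_eq_id, id_eq, inner_smul_right]
        rw [real_inner_comm]
      rw [h2]
      ring
    have h3 : ‖h‖ ^ 2 = ∑ i, (inner ℝ (hA.eigenvectorBasis hn i) h) ^ 2 := by
      rw [← real_inner_self_eq_norm_sq, ← (hA.eigenvectorBasis hn).sum_inner_mul_inner]
      apply Finset.sum_congr rfl
      intro i _
      rw [real_inner_comm h]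
      ring
    rw [h1, h3, Finset.mul_sum]
    refine (Finset.abs_sum_le_sum_abs _ _).trans (Finset.sum_le_sum ?_)
    intro i _
    rw [abs_mul, abs_of_nonneg (sq_nonneg (inner ℝ (hA.eigenvectorBasis hn i) h))]
    exact mul_le_mul_of_nonneg_right (hi₀ i) (sq_nonneg _)

end

theorem t_DRB : S_DRB := by
  classical
  intro H _ _ V m hR hL hW Δ hΔ hconj h hh
  by_cases h0 : h = 0
  · subst h0
    simp
  -- the space in Euclidean form
  let e : EuclideanSpace ℝ H ≃ₗ[ℝ] (H → ℝ) := WithLp.linearEquiv 2 ℝ (H → ℝ)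
  let V' : Submodule ℝ (EuclideanSpace ℝ H) := V.comap e.toLinearMap
  have hV' : ∀ f ∈ V', AA Δ f ∈ V' := by
    intro f hf
    have hf' : (fun x => f x) ∈ V := hf
    show (fun x => ∑ d ∈ Δ, f (x * d)) ∈ V
    have h1 : (fun x => ∑ d ∈ Δ, f (x * d)) = ∑ d ∈ Δ, (fun x => f (x * d)) := by
      ext x; simp
    rw [h1]
    exact Submodule.sum_mem _ fun d _ => hR d _ hf'
  have hsym := (AA_symm Δ hΔ).restrict_invariant hV'
  let h' : V' := ⟨WithLp.toLp 2 h, hh⟩
  have hh' : h' ≠ 0 := by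
    intro hc
    apply h0
    have h1 : (h' : EuclideanSpace ℝ H) = 0 := by rw [hc]; rfl
    ext x
    have h2 := congrArg (fun f : EuclideanSpace ℝ H => f x) h1
    simpa using h2
  obtain ⟨μ, ⟨w, hw0, hw⟩, hμ⟩ := form_le _ hsym h' hh'
  -- the eigenspace
  let W : Submodule ℝ (H → ℝ) :=
    { carrier := {w | w ∈ V ∧ ∀ x, ∑ d ∈ Δ, w (x * d) = μ * w x}
      add_mem' := by
        rintro a b ⟨ha, ha'⟩ ⟨hb, hb'⟩
        refine ⟨V.add_mem ha hb, fun x => ?_⟩
        simp only [Pi.add_apply, Finset.sum_add_distrib, ha', hb']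
        ring
      zero_mem' := ⟨V.zero_mem, fun x => by simp⟩
      smul_mem' := by
        rintro c a ⟨ha, ha'⟩
        refine ⟨V.smul_mem c ha, fun x => ?_⟩
        simp only [Pi.smul_apply, smul_eq_mul, ← Finset.mul_sum, ha']
        ring }
  have hWV : W ≤ V := fun a ha => ha.1
  have hW0 : W ≠ ⊥ := by
    rw [Submodule.ne_bot_iff]
    refine ⟨fun x => (w : EuclideanSpace ℝ H) x, ⟨w.2, ?_⟩, ?_⟩
    · intro x
      have h1 := congrArg (fun f : V' => (f : EuclideanSpace ℝ H) x) hw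
      simp only at h1
      exact h1
    · intro hc
      apply hw0
      apply Subtype.ext
      ext x
      have h2 := congrFun hc x
      simpa using h2
  have hWR : RI W := by
    rintro g a ⟨ha, ha'⟩
    refine ⟨hR g a ha, fun x => ?_⟩
    rw [← ha' (x * g)]
    refine Finset.sum_nbij' (fun d => g⁻¹ * d * g) (fun d => g * d * g⁻¹) ?_ ?_ ?_ ?_ ?_
    · intro d hd
      have := hconj d hd g⁻¹
      simpa using this
    · intro d hd
      exact hconj d hd g
    · intro d _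
      group
    · intro d _
      group
    · intro d _
      congr 1
      group
  have hWL : LI W := by
    rintro g a ⟨ha, ha'⟩
    refine ⟨hL g a ha, fun x => ?_⟩
    have := ha' (g * x)
    simp only [mul_assoc] at this ⊢
    exact this
  have hm := hW W hWV hW0 hWR hWL
  -- Bessel
  let W' : Submodule ℝ (EuclideanSpace ℝ H) := W.comap e.toLinearMap
  have hfin : Module.finrank ℝ W' = Module.finrank ℝ W := by
    have h1 : W' = W.map e.symm.toLinearMap := by
      ext f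
      simp only [W', Submodule.mem_comap, Submodule.mem_map]
      constructor
      · intro hf
        exact ⟨e f, hf, by simp⟩
      · rintro ⟨y, hy, rfl⟩
        simpa using hy
    rw [h1]
    exact LinearEquiv.finrank_map_eq e.symm W
  let b := stdOrthonormalBasis ℝ W'
  have hb : Orthonormal ℝ (fun j => (b j : EuclideanSpace ℝ H)) := by
    have := b.orthonormal
    exact this.comp_linearIsometry W'.subtypeₗᵢ
  have hbe : ∀ j x, ∑ d ∈ Δ, (b j : EuclideanSpace ℝ H) (x * d) = μ * (b j : EuclideanSpace ℝ H) x :=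
    fun j x => (b j).2.2 x
  let a : H → EuclideanSpace ℝ H := fun x => WithLp.toLp 2 (fun y => if x⁻¹ * y ∈ Δ then (1 : ℝ) else 0)
  have ha1 : ∀ x, ‖a x‖ ^ 2 = Δ.card := by
    intro x
    rw [norm_E]
    have h1 : ∀ y, (a x) y ^ 2 = if x⁻¹ * y ∈ Δ then (1 : ℝ) else 0 := by
      intro y
      show (if x⁻¹ * y ∈ Δ then (1 : ℝ) else 0) ^ 2 = _
      split_ifs <;> norm_num
    simp only [h1]
    rw [← Equiv.sum_comp (Equiv.mulLeft x) (fun y => if x⁻¹ * y ∈ Δ then (1 : ℝ) else 0)]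
    simp
  have ha2 : ∀ (f : EuclideanSpace ℝ H) x, inner ℝ f (a x) = ∑ d ∈ Δ, f (x * d) := by
    intro f x
    rw [inner_E]
    have h1 : ∀ y, f y * (a x) y = if x⁻¹ * y ∈ Δ then f y else 0 := by
      intro y
      show f y * (if x⁻¹ * y ∈ Δ then (1 : ℝ) else 0) = _
      split_ifs <;> simp
    simp only [h1]
    rw [← Equiv.sum_comp (Equiv.mulLeft x) (fun y => if x⁻¹ * y ∈ Δ then f y else 0)]
    simp
  have hbes : ∀ x, ∑ j, (μ * (b j : EuclideanSpace ℝ H) x) ^ 2 ≤ Δ.card := by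
    intro x
    have h1 := hb.sum_inner_products_le (a x) (s := Finset.univ)
    rw [ha1] at h1
    refine le_trans (le_of_eq ?_) h1
    apply Finset.sum_congr rfl
    intro j _
    rw [ha2, hbe, Real.norm_eq_abs, sq_abs]
  have hk : (Module.finrank ℝ W : ℝ) * μ ^ 2 ≤ Fintype.card H * Δ.card := by
    have h1 : ∑ x : H, ∑ j, (μ * (b j : EuclideanSpace ℝ H) x) ^ 2 ≤ ∑ x : H, (Δ.card : ℝ) :=
      Finset.sum_le_sum fun x _ => hbes x
    rw [Finset.sum_comm] at h1
    have h2 : ∀ j, ∑ x, (μ * (b j : EuclideanSpace ℝ H) x) ^ 2 = μ ^ 2 := by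
      intro j
      simp only [mul_pow]
      rw [← Finset.mul_sum, ← norm_E]
      have := hb.1 j
      rw [this]
      ring
    simp only [h2] at h1
    rw [Finset.sum_const, Finset.sum_const, Finset.card_univ, Finset.card_univ, Fintype.card_fin,
      nsmul_eq_mul, nsmul_eq_mul, hfin] at h1
    exact h1
  -- conclusion
  have hform : inner ℝ (((AA Δ).restrict hV') h') h' = ∑ d ∈ Δ, ∑ x, h x * h (x * d) := by
    show inner ℝ (AA Δ (WithLp.toLp 2 h)) (WithLp.toLp 2 h : EuclideanSpace ℝ H) = _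
    rw [inner_E]
    simp only [AA_apply, Finset.sum_mul]
    rw [Finset.sum_comm]
    apply Finset.sum_congr rfl
    intro d _
    apply Finset.sum_congr rfl
    intro x _
    show h (x * d) * h x = _
    ring
  have hnorm : ‖h'‖ ^ 2 = ∑ x, h x ^ 2 := by
    show ‖(WithLp.toLp 2 h : EuclideanSpace ℝ H)‖ ^ 2 = _
    rw [norm_E]
  rw [hform, hnorm] at hμ
  set q := ∑ d ∈ Δ, ∑ x, h x * h (x * d)
  set N := ∑ x, h x ^ 2
  have hN : 0 ≤ N := Finset.sum_nonneg fun x _ => sq_nonneg _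
  have hq : q ^ 2 ≤ μ ^ 2 * N ^ 2 := by
    have h1 : |q| ^ 2 ≤ (|μ| * N) ^ 2 := pow_le_pow_left₀ (abs_nonneg _) hμ 2
    rwa [sq_abs, mul_pow, sq_abs] at h1
  have hm' : (m : ℝ) ≤ Module.finrank ℝ W := by exact_mod_cast hm
  calc (m : ℝ) * q ^ 2 ≤ Module.finrank ℝ W * (μ ^ 2 * N ^ 2) :=
        mul_le_mul hm' hq (sq_nonneg _) (Nat.cast_nonneg _)
    _ = (Module.finrank ℝ W * μ ^ 2) * N ^ 2 := by ring
    _ ≤ Fintype.card H * Δ.card * N ^ 2 := mul_le_mul_of_nonneg_right hk (sq_nonneg _)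

end V5helper28.ER
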