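import Pool.Agent.V5helper19.ER.Stm2

set_option autoImplicit false
open Finset

namespace V5helper28.ER.M
open V5helper19.ER

/-- the functions whose sums over the `T i j` vanish -/
def VV (n : ℕ) : Submodule ℝ (G n → ℝ) where
  carrier := {w | Van w}
  add_mem' := by
    intro a b ha hb i j
    simp only [Pi.add_apply, Finset.sum_add_distrib]
    rw [ha i j, hb i j, add_zero]
  zero_mem' := by
    intro i j
    simp
  smul_mem' := by
    intro c a ha i j
    simp only [Pi.smul_apply, smul_eq_mul, ← Finset.mul_sum]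
    rw [ha i j, mul_zero]

lemma VV_RI (n : ℕ) : RI (VV n) := by
  intro g w hw i j
  have h1 := hw ((g : Equiv.Perm (Fin n))⁻¹ i) j
  rw [← h1]
  refine Finset.sum_nbij' (fun x => x * g) (fun y => y * g⁻¹) ?_ ?_ ?_ ?_ ?_
  · intro x hx
    simp only [T, mem_filter, mem_univ, true_and] at hx ⊢
    simpa using hx
  · intro x hx
    simp only [T, mem_filter, mem_univ, true_and] at hx ⊢
    simpa using hx
  · intro x _
    simp
  · intro x _
    simp
  · intro x _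
    rfl

lemma VV_LI (n : ℕ) : LI (VV n) := by
  intro g w hw i j
  have h1 := hw i ((g : Equiv.Perm (Fin n)) j)
  rw [← h1]
  refine Finset.sum_nbij' (fun x => g * x) (fun y => g⁻¹ * y) ?_ ?_ ?_ ?_ ?_
  · intro x hx
    simp only [T, mem_filter, mem_univ, true_and] at hx ⊢
    simpa using hx
  · intro x hx
    simp only [T, mem_filter, mem_univ, true_and] at hx ⊢
    simp only [Subgroup.coe_mul, Subgroup.coe_inv, Equiv.Perm.mul_apply, hx]
    simp
  · intro x _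
    simp
  · intro x _
    simp
  · intro x _
    rfl

lemma Der_inv (n : ℕ) : ∀ d ∈ Der n, d⁻¹ ∈ Der n := by
  intro d hd
  simp only [Der, mem_filter, mem_univ, true_and] at hd ⊢
  intro i hi
  apply hd i
  have h1 : (d : Equiv.Perm (Fin n)) (((d⁻¹ : G n) : Equiv.Perm (Fin n)) i) = i := by
    simp
  rw [hi] at h1
  exact h1

lemma Der_conj (n : ℕ) : ∀ d ∈ Der n, ∀ g : G n, g * d * g⁻¹ ∈ Der n := by
  intro d hd g
  simp only [Der, mem_filter, mem_univ, true_and] at hd ⊢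
  intro i hi
  apply hd ((g : Equiv.Perm (Fin n))⁻¹ i)
  have h1 : (g : Equiv.Perm (Fin n)) ((d : Equiv.Perm (Fin n)) ((g : Equiv.Perm (Fin n))⁻¹ i)) = i := by
    simpa using hi
  rw [Equiv.Perm.eq_inv_iff_eq]
  exact h1

/-- grouping by the value of `d i` -/
lemma group_sum {n : ℕ} (X : Finset (G n)) (F : Fin n → Fin n → ℝ) :
    ∑ d ∈ X, ∑ i, F ((d : Equiv.Perm (Fin n)) i) i =
      ∑ i, ∑ k, ((X.filter fun d : G n => (d : Equiv.Perm (Fin n)) i = k).card : ℝ) * F k i := by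
  rw [Finset.sum_comm]
  apply Finset.sum_congr rfl
  intro i _
  rw [← Finset.sum_fiberwise X (fun d : G n => (d : Equiv.Perm (Fin n)) i)]
  apply Finset.sum_congr rfl
  intro k _
  rw [← nsmul_eq_mul, ← Finset.sum_const]
  apply Finset.sum_congr rfl
  intro d hd
  rw [(Finset.mem_filter.1 hd).2]

/-- the error terms -/
lemma err1 {N q n c s t dd sg : ℝ} (hN : 0 < N) (hq : 0 < q) (hn : 2 ≤ n) (hc : 0 ≤ c) (hs : s = c * N / n)
    (hNq : N ≤ 180 * q) (hdd : dd * (n - 1) ≤ 2 * q) (hdd0 : 0 ≤ dd) (hsg : n ^ 2 / 100 * sg ≤ N * s ^ 2)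
    (ht : t ^ 2 ≤ dd * sg) : |n ^ 2 * t / (N * q)| ≤ 300 * c / Real.sqrt n := by
  have hn0 : 0 < n := by linarith
  have hn1 : 0 < n - 1 := by linarith
  have hsq : 0 < Real.sqrt n := Real.sqrt_pos.2 hn0
  apply abs_le_of_sq_le_sq _ (by positivity)
  have h1 : sg ≤ 100 * N * s ^ 2 / n ^ 2 := by
    rw [le_div_iff₀ (by positivity)]
    linarith
  have h2 : dd ≤ 2 * q / (n - 1) := by
    rw [le_div_iff₀ hn1]
    exact hdd
  have h3 : t ^ 2 ≤ 2 * q / (n - 1) * (100 * N * s ^ 2 / n ^ 2) := by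
    refine ht.trans ?_
    have h4 : dd * sg ≤ dd * (100 * N * s ^ 2 / n ^ 2) := mul_le_mul_of_nonneg_left h1 hdd0
    refine h4.trans ?_
    exact mul_le_mul_of_nonneg_right h2 (by positivity)
  have h5 : (n ^ 2 * t / (N * q)) ^ 2 = n ^ 4 / (N ^ 2 * q ^ 2) * t ^ 2 := by
    field_simp
  have h6 : (300 * c / Real.sqrt n) ^ 2 = 90000 * c ^ 2 / n := by
    rw [div_pow, Real.sq_sqrt hn0.le]
    ring
  rw [h5, h6]
  calc n ^ 4 / (N ^ 2 * q ^ 2) * t ^ 2 ≤ n ^ 4 / (N ^ 2 * q ^ 2) * (2 * q / (n - 1) * (100 * N * s ^ 2 / n ^ 2)) :=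
        mul_le_mul_of_nonneg_left h3 (by positivity)
    _ = 200 * c ^ 2 * N / (q * (n - 1)) := by
        rw [hs]
        field_simp
        ring
    _ ≤ 90000 * c ^ 2 / n := by
        rw [div_le_div_iff₀ (by positivity) hn0]
        have h7 : N * n ≤ 360 * (q * (n - 1)) := by nlinarith
        have h8 : 0 ≤ c ^ 2 := sq_nonneg _
        have h9 : 0 < q * (n - 1) := by positivity
        nlinarith [mul_le_mul_of_nonneg_left h7 h8, mul_nonneg h8 h9.le]

lemma err2 {N q n c s t : ℝ} (hN : 0 < N) (hq : 0 < q) (hn : 2 ≤ n) (hc : 0 ≤ c) (hs : s = c * N / n)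
    (hNq : N ≤ 180 * q) (ht : n ^ 3 / 1000 * t ^ 2 ≤ N * q * s ^ 2) :
    |n ^ 2 * t / (N * q)| ≤ 500 * c / Real.sqrt n := by
  have hn0 : 0 < n := by linarith
  have hsq : 0 < Real.sqrt n := Real.sqrt_pos.2 hn0
  apply abs_le_of_sq_le_sq _ (by positivity)
  have h1 : t ^ 2 ≤ 1000 * (N * q * s ^ 2) / n ^ 3 := by
    rw [le_div_iff₀ (by positivity)]
    linarith
  have h5 : (n ^ 2 * t / (N * q)) ^ 2 = n ^ 4 / (N ^ 2 * q ^ 2) * t ^ 2 := by
    field_simp
  have h6 : (500 * c / Real.sqrt n) ^ 2 = 250000 * c ^ 2 / n := by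
    rw [div_pow, Real.sq_sqrt hn0.le]
    ring
  rw [h5, h6]
  calc n ^ 4 / (N ^ 2 * q ^ 2) * t ^ 2 ≤ n ^ 4 / (N ^ 2 * q ^ 2) * (1000 * (N * q * s ^ 2) / n ^ 3) :=
        mul_le_mul_of_nonneg_left h1 (by positivity)
    _ = 1000 * c ^ 2 * N / (q * n) := by
        rw [hs]
        field_simp
    _ ≤ 250000 * c ^ 2 / n := by
        rw [div_le_div_iff₀ (by positivity) hn0]
        have h8 : 0 ≤ c ^ 2 * n := by positivity
        nlinarith [mul_le_mul_of_nonneg_left hNq h8, mul_nonneg h8 hq.le]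

theorem t_MAIN (h1 : S_KEY) (h2 : S_DC) (h3 : S_LB) (h4 : S_BNP) (h5 : S_DRB) (h6 : S_DM1) (h7 : S_DM2) : S_MAIN := by
  classical
  obtain ⟨n1, hn1⟩ := h6
  obtain ⟨n2, hn2⟩ := h7
  refine ⟨1000, n1 + n2 + 100, by norm_num, ?_⟩
  intro n hn D S hB
  have hn100 : 100 ≤ n := by omega
  have hnR : (100 : ℝ) ≤ n := by exact_mod_cast hn100
  obtain ⟨hvan, hf2, _, hrow, hcol, hkey⟩ := h1 n (by omega) S
  obtain ⟨_, hNq, hLB⟩ := h3 n hn100
  have hDn := hLB D S hB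
  set N := NN n with hN
  have hN0 : 0 < N := by
    have h8 : 0 < Fintype.card (G n) := Fintype.card_pos
    rw [hN, NN]
    exact_mod_cast h8
  set q : ℝ := ((Der n).card : ℝ) with hq
  have hq0 : 0 < q := by linarith
  set s : ℝ := (S.card : ℝ) with hs
  have hs0 : 0 ≤ s := Nat.cast_nonneg _
  set c : ℝ := cc S with hc
  have hcs : s = c * N / n := by
    rw [hc, cc, ← hs, ← hN]
    field_simp
  have hc0 : 0 ≤ c := by
    rw [hc, cc]
    positivity
  have hDsub : D ⊆ Der n := fun d hd => hB.der d hd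
  -- spectral estimates
  have hfmem : f2 S ∈ VV n := hvan
  have hsum2 : (∑ x, f2 S x ^ 2) ^ 2 ≤ s ^ 2 :=
    pow_le_pow_left₀ (Finset.sum_nonneg fun x _ => sq_nonneg _) hf2 2
  have hbnp : (n : ℝ) ^ 2 / 100 * ∑ d, (∑ x, f2 S x * f2 S (x * d)) ^ 2 ≤ N * s ^ 2 := by
    have h8 := h4 (G n) (VV n) ⌈(n : ℝ) ^ 2 / 100⌉₊ (VV_RI n) (by
      intro W hW hW0 hWR
      have h9 := (hn1 n (by omega) W hW0 hWR (fun w hw => hW hw)).1
      rw [Nat.ceil_le]
      linarith) (f2 S) hfmem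
    have h9 : (n : ℝ) ^ 2 / 100 ≤ (⌈(n : ℝ) ^ 2 / 100⌉₊ : ℝ) := Nat.le_ceil _
    have h10 : 0 ≤ ∑ d, (∑ x, f2 S x * f2 S (x * d)) ^ 2 := Finset.sum_nonneg fun d _ => sq_nonneg _
    calc (n : ℝ) ^ 2 / 100 * ∑ d, (∑ x, f2 S x * f2 S (x * d)) ^ 2
        ≤ (⌈(n : ℝ) ^ 2 / 100⌉₊ : ℝ) * ∑ d, (∑ x, f2 S x * f2 S (x * d)) ^ 2 :=
          mul_le_mul_of_nonneg_right h9 h10
      _ ≤ Fintype.card (G n) * (∑ x, f2 S x ^ 2) ^ 2 := h8
      _ ≤ N * s ^ 2 := mul_le_mul_of_nonneg_left hsum2 hN0.le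
  have hdrb : (n : ℝ) ^ 3 / 1000 * (∑ d ∈ Der n, ∑ x, f2 S x * f2 S (x * d)) ^ 2 ≤ N * q * s ^ 2 := by
    have h8 := h5 (G n) (VV n) ⌈(n : ℝ) ^ 3 / 1000⌉₊ (VV_RI n) (VV_LI n) (by
      intro W hW hW0 hWR hWL
      have h9 := hn2 n (by omega) W hW0 hWR hWL (fun w hw => hW hw)
      rw [Nat.ceil_le]
      linarith) (Der n) (Der_inv n) (Der_conj n) (f2 S) hfmem
    have h9 : (n : ℝ) ^ 3 / 1000 ≤ (⌈(n : ℝ) ^ 3 / 1000⌉₊ : ℝ) := Nat.le_ceil _
    calc (n : ℝ) ^ 3 / 1000 * (∑ d ∈ Der n, ∑ x, f2 S x * f2 S (x * d)) ^ 2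
        ≤ (⌈(n : ℝ) ^ 3 / 1000⌉₊ : ℝ) * (∑ d ∈ Der n, ∑ x, f2 S x * f2 S (x * d)) ^ 2 :=
          mul_le_mul_of_nonneg_right h9 (sq_nonneg _)
      _ ≤ Fintype.card (G n) * (Der n).card * (∑ x, f2 S x ^ 2) ^ 2 := h8
      _ ≤ N * q * s ^ 2 := mul_le_mul_of_nonneg_left hsum2 (by positivity)
  have hED : (∑ d ∈ D, ∑ x, f2 S x * f2 S (x * d)) ^ 2 ≤
      (D.card : ℝ) * ∑ d, (∑ x, f2 S x * f2 S (x * d)) ^ 2 := by
    refine (sq_sum_le_card_mul_sum_sq (s := D) (f := fun d => ∑ x, f2 S x * f2 S (x * d))).trans ?_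
    apply mul_le_mul_of_nonneg_left _ (Nat.cast_nonneg _)
    exact Finset.sum_le_sum_of_subset_of_nonneg (Finset.subset_univ _) (fun d _ _ => sq_nonneg _)
  have hn0 : (0 : ℝ) < n := by linarith
  have e1 := err1 (t := ∑ d ∈ D, ∑ x, f2 S x * f2 S (x * d)) hN0 hq0 (by linarith) hc0 hcs hNq hDn
    (Nat.cast_nonneg _) hbnp hED
  have e2 := err2 (t := ∑ d ∈ Der n, ∑ x, f2 S x * f2 S (x * d)) hN0 hq0 (by linarith) hc0 hcs hNq hdrb
  -- the quadratic form
  let B : Fin n → Fin n → ℝ := fun k i => ∑ l, ab S k l * ab S i l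
  have hBcol : ∀ i, ∑ k, B k i = 0 := by
    intro i
    show ∑ k, ∑ l, ab S k l * ab S i l = 0
    rw [Finset.sum_comm]
    apply Finset.sum_eq_zero
    intro l _
    rw [← Finset.sum_mul, hcol l, zero_mul]
  have hQ1 : ((n : ℝ) - 1) * ∑ d ∈ Der n, ∑ i, B ((d : Equiv.Perm (Fin n)) i) i = -(q * ∑ i, B i i) := by
    rw [group_sum, Finset.mul_sum, Finset.mul_sum, ← Finset.sum_neg_distrib]
    apply Finset.sum_congr rfl
    intro i _
    rw [Finset.mul_sum]
    have h8 : ∀ k, ((n : ℝ) - 1) * ((((Der n).filter fun d : G n => (d : Equiv.Perm (Fin n)) i = k).card : ℝ) * B k i) =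
        q * B k i - (if k = i then q * B i i else 0) := by
      intro k
      split_ifs with h9
      · subst h9
        have h10 : (Der n).filter (fun d : G n => (d : Equiv.Perm (Fin n)) k = k) = ∅ := by
          apply Finset.filter_eq_empty_iff.2
          intro d hd
          simp only [Der, mem_filter, mem_univ, true_and] at hd
          exact hd k
        rw [h10]
        simp
      · have h10 := h2 n (by omega) i k (fun h => h9 h.symm)
        have h11 : ((n : ℝ) - 1) * ((DD i k).card : ℝ) = q := by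
          rw [hq, ← h10]
          push_cast [Nat.cast_sub (by omega : 1 ≤ n)]
          ring
        rw [DD] at h11
        rw [← mul_assoc, h11]
        ring
    simp only [h8]
    rw [Finset.sum_sub_distrib, ← Finset.mul_sum, hBcol i]
    simp
  have hQ2 : ((n : ℝ) - 1) * ∑ d ∈ D, ∑ i, B ((d : Equiv.Perm (Fin n)) i) i =
      q * ∑ i, ∑ k, mm D i k * B i k := by
    rw [group_sum, Finset.mul_sum, Finset.mul_sum]
    apply Finset.sum_congr rfl
    intro i _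
    rw [Finset.mul_sum, Finset.mul_sum]
    apply Finset.sum_congr rfl
    intro k _
    have h8 : B k i = B i k := by
      show ∑ l, ab S k l * ab S i l = ∑ l, ab S i l * ab S k l
      apply Finset.sum_congr rfl
      intro l _
      ring
    rw [h8, mm, ← hq]
    field_simp
  have hQQ : QQ D S = ∑ i, B i i + ∑ i, ∑ k, mm D i k * B i k := by
    rw [QQ]
    congr 1
    apply Finset.sum_congr rfl
    intro i _
    apply Finset.sum_congr rfl
    intro l _
    ring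
  -- the sum over the complement
  have hzero : ∀ d ∈ Der n \ D, (0 : ℝ) = s ^ 2 / N +
      N * (((n : ℝ) - 1) / n ^ 2) * ∑ i, B ((d : Equiv.Perm (Fin n)) i) i + ∑ x, f2 S x * f2 S (x * d) := by
    intro d hd
    rw [Finset.mem_sdiff] at hd
    have h8 := hkey d
    have h9 : S.filter (fun x : G n => x * d ∈ S) = ∅ := by
      apply Finset.filter_eq_empty_iff.2
      intro x hx
      exact hB.ind x hx d hd.1 hd.2
    rw [h9, Finset.card_empty, Nat.cast_zero] at h8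
    exact h8
  have hsumz : (0 : ℝ) = (Der n \ D).card * (s ^ 2 / N) +
      N * (((n : ℝ) - 1) / n ^ 2) * ∑ d ∈ Der n \ D, ∑ i, B ((d : Equiv.Perm (Fin n)) i) i +
      ∑ d ∈ Der n \ D, ∑ x, f2 S x * f2 S (x * d) := by
    have h8 := Finset.sum_congr (rfl : Der n \ D = Der n \ D) hzero
    rw [Finset.sum_const_zero, Finset.sum_add_distrib, Finset.sum_add_distrib, Finset.sum_const, nsmul_eq_mul,
      ← Finset.mul_sum] at h8
    exact h8
  have hsd1 := Finset.sum_sdiff (f := fun d : G n => ∑ i, B ((d : Equiv.Perm (Fin n)) i) i) hDsub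
  have hsd2 := Finset.sum_sdiff (f := fun d : G n => ∑ x, f2 S x * f2 S (x * d)) hDsub
  have hcard : ((Der n \ D).card : ℝ) = q - D.card := by
    rw [Finset.card_sdiff_of_subset hDsub, Nat.cast_sub (Finset.card_le_card hDsub)]
  set SB := ∑ d ∈ Der n \ D, ∑ i, B ((d : Equiv.Perm (Fin n)) i) i
  set SF := ∑ d ∈ Der n \ D, ∑ x, f2 S x * f2 S (x * d)
  set ED := ∑ d ∈ D, ∑ x, f2 S x * f2 S (x * d)
  set EDer := ∑ d ∈ Der n, ∑ x, f2 S x * f2 S (x * d)
  have hSB : ((n : ℝ) - 1) * SB = -(q * QQ D S) := by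
    rw [hQQ]
    have h8 : ((n : ℝ) - 1) * SB + ((n : ℝ) - 1) * ∑ d ∈ D, ∑ i, B ((d : Equiv.Perm (Fin n)) i) i =
        ((n : ℝ) - 1) * ∑ d ∈ Der n, ∑ i, B ((d : Equiv.Perm (Fin n)) i) i := by
      rw [← hsd1]
      ring
    rw [hQ1, hQ2] at h8
    linarith
  have hSF : SF = EDer - ED := by linarith
  -- conclusion
  have hmain : QQ D S = (1 - D.card / q) * c ^ 2 + (n : ℝ) ^ 2 * EDer / (N * q) - (n : ℝ) ^ 2 * ED / (N * q) := by
    have h8 : N * (((n : ℝ) - 1) / n ^ 2) * SB = -(N * q / n ^ 2 * QQ D S) := by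
      have h9 : N * (((n : ℝ) - 1) / n ^ 2) * SB = N / n ^ 2 * (((n : ℝ) - 1) * SB) := by ring
      rw [h9, hSB]
      ring
    rw [h8, hcard, hSF, hcs] at hsumz
    have h9 : N * q / n ^ 2 * QQ D S = (q - D.card) * ((c * N / n) ^ 2 / N) + (EDer - ED) := by linarith
    have h10 : QQ D S = (n : ℝ) ^ 2 / (N * q) * (N * q / n ^ 2 * QQ D S) := by
      field_simp
    rw [h10, h9]
    field_simp
    ring
  have hfrac : (D.card : ℝ) / q ≤ 2 / ((n : ℝ) - 1) := by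
    rw [div_le_div_iff₀ hq0 (by linarith)]
    linarith
  have h8 := abs_le.1 e1
  have h9 := abs_le.1 e2
  have h10 : (1 - 2 / ((n : ℝ) - 1)) * c ^ 2 ≤ (1 - D.card / q) * c ^ 2 :=
    mul_le_mul_of_nonneg_right (by linarith) (sq_nonneg _)
  have h11 : 300 * c / Real.sqrt n + 500 * c / Real.sqrt n ≤ 1000 * c / Real.sqrt n := by
    rw [← add_div]
    apply div_le_div_of_nonneg_right _ (Real.sqrt_nonneg _)
    linarith
  rw [hmain]
  linarith [h8.1, h8.2, h9.1, h9.2]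

end V5helper28.ER.M
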